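import Mathlib

set_option autoImplicit false

/-!
Tverberg points and the core of a finite set.
-/

namespace Pool.Agent.N343.TC

/-- the points in the intersection of the convex hulls of the `τ` parts of some partition of `S`
(given by a colouring with `τ` colours) -/
def tverbergPoints {d : ℕ} (τ : ℕ) (S : Set (Fin d → ℝ)) : Set (Fin d → ℝ) :=
  {p | ∃ f : (Fin d → ℝ) → Fin τ, ∀ i, p ∈ convexHull ℝ {x | x ∈ S ∧ f x = i}}

/-- the intersection of the convex hulls of `S ∖ T` for all `T ⊆ S` with at most `σ` points -/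
def core {d : ℕ} (σ : ℕ) (S : Set (Fin d → ℝ)) : Set (Fin d → ℝ) :=
  {p | ∀ T : Finset (Fin d → ℝ), (T : Set (Fin d → ℝ)) ⊆ S → T.card ≤ σ →
    p ∈ convexHull ℝ (S \ T)}

end Pool.Agent.N343.TC
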